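import Mathlib
import Pool.Agent.MP_042a8e_lc.Cert2

namespace Pool.Agent.Results.MP_042a8e_lc.Decidable

theorem result : ∃ f : ℕ × List (ℕ × List ℕ) → Bool, Computable f ∧
    ∀ (n : ℕ) (P : List (Fin n × List (Fin n))), (∀ p ∈ P, p.2 ≠ []) →
      (f (n, P.map fun p => (p.1.val, p.2.map Fin.val)) = true ↔
        Pool.Agent.MP_042a8e_lc.TotalRegulator P) :=
  Pool.Agent.MP_042a8e_lc.decidable_regulator

end Pool.Agent.Results.MP_042a8e_lc.Decidable
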